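import Pool.Agent.Helper27.SG.Perturb

/-!
# The combinatorial part: graphs with a sparse orientation and bounded codegrees
-/

set_option linter.unusedSectionVars false

namespace Helper27.SG

open Finset Helper5.CR

/-- A crossing system whose edges are edges of a graph `G`, with an orientation `arc` of `G` of
outdegree at most `d`, and at most `t` common neighbours of any two vertices. -/
structure Sys {V E X : Type} [Fintype V] (C : CSys V E X) (G : SimpleGraph V) (d t : ℕ) where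
  arc : V → V → Prop
  adj : ∀ u v, G.Adj u v ↔ (arc u v ∨ arc v u)
  anti : ∀ u v, arc u v → ¬ arc v u
  out : V → Finset V
  mem_out : ∀ u v, v ∈ out u ↔ arc u v
  card_out : ∀ u, (out u).card ≤ d
  com : V → V → Finset V
  mem_com : ∀ u v w, w ∈ com u v ↔ (G.Adj u w ∧ G.Adj v w)
  card_com : ∀ u v, u ≠ v → (com u v).card ≤ t
  lo : E → V
  hi : E → V
  arc_lo_hi : ∀ e, arc (lo e) (hi e)
  ends : ∀ e, (C.src e = lo e ∧ C.tgt e = hi e) ∨ (C.src e = hi e ∧ C.tgt e = lo e)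
  uniq : ∀ e f, lo e = lo f → hi e = hi f → e = f

namespace Sys

variable {V E X : Type} [Fintype V] [DecidableEq V] [Fintype E] [DecidableEq E] [Fintype X]
  [DecidableEq X] {C : CSys V E X} {G : SimpleGraph V} {d t : ℕ}

variable (S : Sys C G d t)

/-- low ends adjacent -/
def N1 (e f : E) : Prop := S.arc (S.lo e) (S.lo f)

/-- arc from the top of `e` to the low end of `f` -/
def N2 (e f : E) : Prop := S.arc (S.hi e) (S.lo f)

/-- both low ends adjacent to both tops -/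
def N3 (e f : E) : Prop := S.arc (S.lo e) (S.hi f) ∧ S.arc (S.lo f) (S.hi e)

/-- the rare types -/
def Neg (e f : E) : Prop := S.N1 e f ∨ S.N1 f e ∨ S.N2 e f ∨ S.N2 f e ∨ S.N3 e f

/-- base `e`, spoke `f` -/
def T (e f : E) : Prop :=
  ¬ S.Neg e f ∧ S.arc (S.lo e) (S.hi f) ∧ S.arc (S.hi e) (S.hi f)

/-- bases -/
def B (e : E) : Prop := ∃ f, S.T e f

/-- nonadjacent pairs joined by a directed path of length two -/
def R2 (u v : V) : Prop := ¬ G.Adj u v ∧ ∃ c, S.arc u c ∧ S.arc c v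

open Classical in
/-- first weight -/
noncomputable def s1 (u v : V) : ℝ := if S.arc u v then 1 else if S.R2 u v then -1 else 0

open Classical in
/-- second weight -/
noncomputable def s2 (u v : V) : ℝ := if ∃ e, S.B e ∧ S.lo e = u ∧ S.hi e = v then 1 else 0

/-- the weight -/
noncomputable def s (u v : V) : ℝ := (5 * S.s1 u v + S.s2 u v) / 6

theorem s2_nonneg (u v : V) : 0 ≤ S.s2 u v := by
  unfold s2; split_ifs <;> norm_num

theorem s2_le_one (u v : V) : S.s2 u v ≤ 1 := by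
  unfold s2; split_ifs <;> norm_num

theorem arc_of_s2 {u v : V} (h : S.s2 u v ≠ 0) : S.arc u v := by
  unfold s2 at h
  split_ifs at h with h1
  · obtain ⟨e, -, rfl, rfl⟩ := h1
    exact S.arc_lo_hi e
  · exact absurd rfl h

theorem hat2_le (a b : V) : S.s2 a b + S.s2 b a ≤ 1 := by
  by_cases h1 : S.s2 a b = 0
  · have := S.s2_le_one b a; linarith
  · have h2 : S.s2 b a = 0 := by
      by_contra h3
      exact S.anti _ _ (S.arc_of_s2 h1) (S.arc_of_s2 h3)
    have := S.s2_le_one a b; linarith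

theorem hat2_nonadj {a b : V} (h : ¬ G.Adj a b) : S.s2 a b + S.s2 b a = 0 := by
  have h1 : S.s2 a b = 0 := by
    by_contra h3
    exact h ((S.adj a b).2 (Or.inl (S.arc_of_s2 h3)))
  have h2 : S.s2 b a = 0 := by
    by_contra h3
    exact h ((S.adj a b).2 (Or.inr (S.arc_of_s2 h3)))
  rw [h1, h2, add_zero]

theorem s1_arc {a b : V} (h : S.arc a b) : S.s1 a b = 1 := by unfold s1; rw [if_pos h]

theorem s1_arc' {a b : V} (h : S.arc a b) : S.s1 b a = 0 := by
  unfold s1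
  rw [if_neg (S.anti _ _ h), if_neg]
  rintro ⟨h1, -⟩
  exact h1 ((S.adj b a).2 (Or.inr h))

theorem hat1_adj {a b : V} (h : G.Adj a b) : S.s1 a b + S.s1 b a = 1 := by
  rcases (S.adj a b).1 h with h1 | h1
  · rw [S.s1_arc h1, S.s1_arc' h1, add_zero]
  · rw [S.s1_arc h1, S.s1_arc' h1, zero_add]

theorem s1_nonadj {a b : V} (h : ¬ G.Adj a b) : S.s1 a b ≤ 0 := by
  unfold s1
  rw [if_neg (fun h1 => h ((S.adj a b).2 (Or.inl h1)))]
  split_ifs <;> norm_num

theorem hat1_nonadj {a b : V} (h : ¬ G.Adj a b) : S.s1 a b + S.s1 b a ≤ 0 := by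
  have h1 := S.s1_nonadj h
  have h2 := S.s1_nonadj (a := b) (b := a) (fun h' => h h'.symm)
  linarith

theorem hat1_le (a b : V) : S.s1 a b + S.s1 b a ≤ 1 := by
  by_cases h : G.Adj a b
  · exact (S.hat1_adj h).le
  · exact (S.hat1_nonadj h).trans zero_le_one

theorem hat1_R2 {a b : V} (h : S.R2 a b) : S.s1 a b + S.s1 b a ≤ -1 := by
  have h1 := S.s1_nonadj (a := b) (b := a) (fun h' => h.1 h'.symm)
  have h2 : S.s1 a b = -1 := by
    unfold s1
    rw [if_neg (fun h1 => h.1 ((S.adj a b).2 (Or.inl h1))), if_pos h]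
  linarith

theorem abs_s_le (u v : V) : |S.s u v| ≤ (if v ∈ S.out u then 1 else 0) +
    (if v ∈ (S.out u).biUnion S.out then 1 else 0) := by
  unfold s
  by_cases h : S.arc u v
  · have h1 := S.s2_nonneg u v
    have h2 := S.s2_le_one u v
    rw [S.s1_arc h, if_pos ((S.mem_out u v).2 h)]
    have h3 : (0 : ℝ) ≤ if v ∈ (S.out u).biUnion S.out then 1 else 0 := by split_ifs <;> norm_num
    rw [abs_le]
    constructor <;> linarith
  · have h1 : S.s2 u v = 0 := by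
      by_contra h3
      exact h (S.arc_of_s2 h3)
    rw [h1, if_neg (fun h' => h ((S.mem_out u v).1 h'))]
    unfold s1
    rw [if_neg h]
    by_cases h2 : S.R2 u v
    · rw [if_pos h2]
      obtain ⟨-, c, hc1, hc2⟩ := h2
      rw [if_pos (mem_biUnion.2 ⟨c, (S.mem_out _ _).2 hc1, (S.mem_out _ _).2 hc2⟩)]
      norm_num [abs_le]
    · rw [if_neg h2]
      have h3 : (0 : ℝ) ≤ if v ∈ (S.out u).biUnion S.out then 1 else 0 := by split_ifs <;> norm_num
      simpa using h3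

theorem sum_abs_s (u : V) : ∑ v, |S.s u v| ≤ (d : ℝ) + d ^ 2 := by
  refine (Finset.sum_le_sum (fun v _ => S.abs_s_le u v)).trans ?_
  rw [Finset.sum_add_distrib]
  have h1 : ∑ v, (if v ∈ S.out u then (1 : ℝ) else 0) = (S.out u).card := by
    rw [Finset.sum_ite_mem]; simp
  have h2 : ∑ v, (if v ∈ (S.out u).biUnion S.out then (1 : ℝ) else 0) =
      ((S.out u).biUnion S.out).card := by
    rw [Finset.sum_ite_mem]; simp
  rw [h1, h2]
  have h3 : ((S.out u).biUnion S.out).card ≤ d * d := by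
    refine (card_biUnion_le).trans ?_
    refine (Finset.sum_le_card_nsmul _ _ d (fun v _ => S.card_out v)).trans ?_
    rw [smul_eq_mul]
    exact Nat.mul_le_mul_right _ (S.card_out u)
  have h4 : ((S.out u).card : ℝ) ≤ d := by exact_mod_cast S.card_out u
  have h5 : (((S.out u).biUnion S.out).card : ℝ) ≤ d * d := by exact_mod_cast h3
  nlinarith

/-- the gain in terms of low and high ends -/
theorem gv_eq (σ : V → V → ℝ) (x : X) :
    gv C σ x =
      (σ (S.lo (C.e₁ x)) (S.hi (C.e₁ x)) + σ (S.hi (C.e₁ x)) (S.lo (C.e₁ x))) +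
      (σ (S.lo (C.e₂ x)) (S.hi (C.e₂ x)) + σ (S.hi (C.e₂ x)) (S.lo (C.e₂ x))) -
      (σ (S.lo (C.e₁ x)) (S.lo (C.e₂ x)) + σ (S.lo (C.e₂ x)) (S.lo (C.e₁ x))) -
      (σ (S.lo (C.e₁ x)) (S.hi (C.e₂ x)) + σ (S.hi (C.e₂ x)) (S.lo (C.e₁ x))) -
      (σ (S.hi (C.e₁ x)) (S.lo (C.e₂ x)) + σ (S.lo (C.e₂ x)) (S.hi (C.e₁ x))) -
      (σ (S.hi (C.e₁ x)) (S.hi (C.e₂ x)) + σ (S.hi (C.e₂ x)) (S.hi (C.e₁ x))) := by
  unfold gv
  rcases S.ends (C.e₁ x) with ⟨h1, h2⟩ | ⟨h1, h2⟩ <;>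
    rcases S.ends (C.e₂ x) with ⟨h3, h4⟩ | ⟨h3, h4⟩ <;> rw [h1, h2, h3, h4] <;> ring

/-- the value of a crossing, for two edges -/
def val (σ : V → V → ℝ) (e f : E) : ℝ :=
  (σ (S.lo e) (S.hi e) + σ (S.hi e) (S.lo e)) + (σ (S.lo f) (S.hi f) + σ (S.hi f) (S.lo f)) -
  (σ (S.lo e) (S.lo f) + σ (S.lo f) (S.lo e)) - (σ (S.lo e) (S.hi f) + σ (S.hi f) (S.lo e)) -
  (σ (S.hi e) (S.lo f) + σ (S.lo f) (S.hi e)) - (σ (S.hi e) (S.hi f) + σ (S.hi f) (S.hi e))

theorem gv_val (σ : V → V → ℝ) (x : X) : gv C σ x = S.val σ (C.e₁ x) (C.e₂ x) := S.gv_eq σ x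

theorem val_symm (σ : V → V → ℝ) (e f : E) : S.val σ e f = S.val σ f e := by
  unfold val; ring

theorem neg_symm {e f : E} (h : S.Neg e f) : S.Neg f e := by
  unfold Neg N3 at *
  tauto

theorem val_s (e f : E) : S.val S.s e f = (5 * S.val S.s1 e f + S.val S.s2 e f) / 6 := by
  unfold val s; ring

theorem adj_lo_hi (e : E) : G.Adj (S.lo e) (S.hi e) := (S.adj _ _).2 (Or.inl (S.arc_lo_hi e))

theorem val1_neg (e f : E) : -2 ≤ S.val S.s1 e f := by
  unfold val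
  rw [S.hat1_adj (S.adj_lo_hi e), S.hat1_adj (S.adj_lo_hi f)]
  have h1 := S.hat1_le (S.lo e) (S.lo f)
  have h2 := S.hat1_le (S.lo e) (S.hi f)
  have h3 := S.hat1_le (S.hi e) (S.lo f)
  have h4 := S.hat1_le (S.hi e) (S.hi f)
  linarith

theorem val2_any (e f : E) : -4 ≤ S.val S.s2 e f := by
  unfold val
  have h1 := S.hat2_le (S.lo e) (S.lo f)
  have h2 := S.hat2_le (S.lo e) (S.hi f)
  have h3 := S.hat2_le (S.hi e) (S.lo f)
  have h4 := S.hat2_le (S.hi e) (S.hi f)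
  have h5 := S.s2_nonneg (S.lo e) (S.hi e)
  have h6 := S.s2_nonneg (S.hi e) (S.lo e)
  have h7 := S.s2_nonneg (S.lo f) (S.hi f)
  have h8 := S.s2_nonneg (S.hi f) (S.lo f)
  linarith

theorem val1_T {e f : E} (h : S.T e f) : 0 ≤ S.val S.s1 e f := by
  obtain ⟨h0, h1, h2⟩ := h
  unfold Neg at h0
  push Not at h0
  obtain ⟨n1, n1', n2, n2', n3⟩ := h0
  have a1 : ¬ G.Adj (S.lo e) (S.lo f) := by
    rw [S.adj]; push Not; exact ⟨n1, n1'⟩
  have a2 : ¬ G.Adj (S.hi e) (S.lo f) := by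
    rw [S.adj]; push Not
    exact ⟨n2, fun h' => n3 ⟨h1, h'⟩⟩
  unfold val
  rw [S.hat1_adj (S.adj_lo_hi e), S.hat1_adj (S.adj_lo_hi f)]
  have h1 := S.hat1_nonadj a1
  have h2 := S.hat1_le (S.lo e) (S.hi f)
  have h3 := S.hat1_nonadj a2
  have h4 := S.hat1_le (S.hi e) (S.hi f)
  linarith

theorem val1_other {e f : E} (h0 : ¬ S.Neg e f) (h1 : ¬ S.T e f) (h2 : ¬ S.T f e) :
    1 ≤ S.val S.s1 e f := by
  have h0' : ¬ S.Neg f e := fun h => h0 (S.neg_symm h)
  have t1 : ¬ (S.arc (S.lo e) (S.hi f) ∧ S.arc (S.hi e) (S.hi f)) := fun h => h1 ⟨h0, h⟩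
  have t2 : ¬ (S.arc (S.lo f) (S.hi e) ∧ S.arc (S.hi f) (S.hi e)) := fun h => h2 ⟨h0', h⟩
  unfold Neg at h0
  push Not at h0
  obtain ⟨n1, n1', n2, n2', n3⟩ := h0
  have a1 : ¬ G.Adj (S.lo e) (S.lo f) := by
    rw [S.adj]; push Not; exact ⟨n1, n1'⟩
  have b1 := S.hat1_nonadj a1
  have b2 := S.hat1_le (S.lo e) (S.hi f)
  have b3 := S.hat1_le (S.hi e) (S.lo f)
  have b4 := S.hat1_le (S.hi e) (S.hi f)
  unfold val
  rw [S.hat1_adj (S.adj_lo_hi e), S.hat1_adj (S.adj_lo_hi f)]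
  by_cases c1 : S.arc (S.lo e) (S.hi f)
  · -- then `lo f`, `hi e` are not adjacent
    have c2 : ¬ S.arc (S.lo f) (S.hi e) := fun h => n3 ⟨c1, h⟩
    have a2 : ¬ G.Adj (S.hi e) (S.lo f) := by
      rw [S.adj]; push Not; exact ⟨n2, c2⟩
    have b3' := S.hat1_nonadj a2
    by_cases c3 : G.Adj (S.hi e) (S.hi f)
    · have c4 : S.arc (S.hi f) (S.hi e) := by
        rcases (S.adj _ _).1 c3 with c | c
        · exact absurd ⟨c1, c⟩ t1
        · exact c
      have r : S.R2 (S.lo f) (S.hi e) := ⟨fun h => a2 h.symm, S.hi f, S.arc_lo_hi f, c4⟩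
      have b5 := S.hat1_R2 r
      linarith
    · have b5 := S.hat1_nonadj c3
      linarith
  · have a2 : ¬ G.Adj (S.lo e) (S.hi f) := by
      rw [S.adj]; push Not; exact ⟨c1, n2'⟩
    have b2' := S.hat1_nonadj a2
    by_cases c2 : S.arc (S.lo f) (S.hi e)
    · by_cases c3 : G.Adj (S.hi e) (S.hi f)
      · have c4 : S.arc (S.hi e) (S.hi f) := by
          rcases (S.adj _ _).1 c3 with c | c
          · exact c
          · exact absurd ⟨c2, c⟩ t2
        have r : S.R2 (S.lo e) (S.hi f) := ⟨a2, S.hi e, S.arc_lo_hi e, c4⟩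
        have b5 := S.hat1_R2 r
        linarith
      · have b5 := S.hat1_nonadj c3
        linarith
    · have a3 : ¬ G.Adj (S.hi e) (S.lo f) := by
        rw [S.adj]; push Not; exact ⟨n2, c2⟩
      have b3' := S.hat1_nonadj a3
      linarith

/-- a base whose side is also a base -/
def Bad (e f : E) : Prop := S.T e f ∧ (S.s2 (S.lo e) (S.hi f) ≠ 0 ∨ S.s2 (S.hi e) (S.hi f) ≠ 0)

theorem val2_T {e f : E} (h : S.T e f) : -1 ≤ S.val S.s2 e f ∧ (¬ S.Bad e f → 1 ≤ S.val S.s2 e f) := by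
  have hb : S.s2 (S.lo e) (S.hi e) = 1 := by
    unfold s2; rw [if_pos ⟨e, ⟨f, h⟩, rfl, rfl⟩]
  have hT := h
  obtain ⟨h0, h1, h2⟩ := h
  unfold Neg at h0
  push Not at h0
  obtain ⟨n1, n1', n2, n2', n3⟩ := h0
  have a1 : ¬ G.Adj (S.lo e) (S.lo f) := by
    rw [S.adj]; push Not; exact ⟨n1, n1'⟩
  have a2 : ¬ G.Adj (S.hi e) (S.lo f) := by
    rw [S.adj]; push Not
    exact ⟨n2, fun h' => n3 ⟨h1, h'⟩⟩
  have z1 : S.s2 (S.hi f) (S.lo e) = 0 := by
    by_contra hz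
    exact S.anti _ _ h1 (S.arc_of_s2 hz)
  have z2 : S.s2 (S.hi f) (S.hi e) = 0 := by
    by_contra hz
    exact S.anti _ _ h2 (S.arc_of_s2 hz)
  have p1 := S.s2_nonneg (S.hi e) (S.lo e)
  have p2 := S.s2_nonneg (S.lo f) (S.hi f)
  have p3 := S.s2_nonneg (S.hi f) (S.lo f)
  have q1 := S.s2_le_one (S.lo e) (S.hi f)
  have q2 := S.s2_le_one (S.hi e) (S.hi f)
  unfold val
  rw [S.hat2_nonadj a1, S.hat2_nonadj a2, z1, z2, hb]
  refine ⟨by linarith, fun hnb => ?_⟩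
  unfold Bad at hnb
  push Not at hnb
  obtain ⟨w1, w2⟩ := hnb hT
  rw [w1, w2]
  linarith

/-! ### counting -/

theorem count_bound (Q : Finset X) (F : E → Finset E) (k : ℕ) (hF : ∀ e, (F e).card ≤ k)
    (hQ : ∀ x ∈ Q, C.e₂ x ∈ F (C.e₁ x) ∨ C.e₁ x ∈ F (C.e₂ x)) : Q.card ≤ k * C.crossed.card := by
  classical
  have hc1 : ∀ x, C.e₁ x ∈ C.crossed := by
    intro x
    unfold CSys.crossed CSys.k
    simp only [mem_filter, mem_univ, true_and]
    exact Finset.card_pos.2 ⟨x, by simp⟩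
  have hc2 : ∀ x, C.e₂ x ∈ C.crossed := by
    intro x
    unfold CSys.crossed CSys.k
    simp only [mem_filter, mem_univ, true_and]
    exact Finset.card_pos.2 ⟨x, by simp⟩
  have h1 : Q.card ≤ (C.crossed.sigma F).card := by
    refine Finset.card_le_card_of_injOn
      (fun x => if C.e₂ x ∈ F (C.e₁ x) then (⟨C.e₁ x, C.e₂ x⟩ : Σ _ : E, E) else
        ⟨C.e₂ x, C.e₁ x⟩) ?_ ?_
    · intro x hx
      have := hQ x hx
      simp only [Finset.coe_sigma, Set.mem_sigma_iff, Finset.mem_coe]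
      split_ifs with h
      · exact ⟨hc1 x, h⟩
      · exact ⟨hc2 x, this.resolve_left h⟩
    · intro x _ y _ hxy
      apply C.once
      simp only at hxy
      split_ifs at hxy with h2 h3 h3
      · rw [Sigma.mk.injEq] at hxy
        exact Or.inl ⟨hxy.1, eq_of_heq hxy.2⟩
      · rw [Sigma.mk.injEq] at hxy
        exact Or.inr ⟨hxy.1, eq_of_heq hxy.2⟩
      · rw [Sigma.mk.injEq] at hxy
        exact Or.inr ⟨eq_of_heq hxy.2, hxy.1⟩
      · rw [Sigma.mk.injEq] at hxy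
        exact Or.inl ⟨eq_of_heq hxy.2, hxy.1⟩
  refine h1.trans ?_
  rw [Finset.card_sigma]
  refine (Finset.sum_le_card_nsmul _ _ k (fun e _ => hF e)).trans ?_
  rw [smul_eq_mul, mul_comm]

theorem card_by_ends (Q : Finset E) (A : Finset V) (Bs : V → Finset V) (a b : ℕ)
    (hA : A.card ≤ a) (hB : ∀ v ∈ A, (Bs v).card ≤ b)
    (h : ∀ e ∈ Q, (S.lo e ∈ A ∧ S.hi e ∈ Bs (S.lo e)) ∨ (S.hi e ∈ A ∧ S.lo e ∈ Bs (S.hi e))) :
    Q.card ≤ a * b := by
  classical
  have h1 : Q.card ≤ (A.sigma Bs).card := by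
    refine Finset.card_le_card_of_injOn
      (fun e => if S.lo e ∈ A ∧ S.hi e ∈ Bs (S.lo e) then (⟨S.lo e, S.hi e⟩ : Σ _ : V, V) else
        ⟨S.hi e, S.lo e⟩) ?_ ?_
    · intro e he
      have := h e he
      simp only [Finset.coe_sigma, Set.mem_sigma_iff, Finset.mem_coe]
      split_ifs with h2
      · exact h2
      · exact this.resolve_left h2
    · intro e _ f _ hef
      simp only at hef
      split_ifs at hef with h2 h3 h3
      · rw [Sigma.mk.injEq] at hef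
        exact S.uniq e f hef.1 (eq_of_heq hef.2)
      · rw [Sigma.mk.injEq] at hef
        have h4 := eq_of_heq hef.2
        have h5 := S.arc_lo_hi e
        have h6 := S.arc_lo_hi f
        rw [hef.1, h4] at h5
        exact absurd h5 (S.anti _ _ h6)
      · rw [Sigma.mk.injEq] at hef
        have h4 := eq_of_heq hef.2
        have h5 := S.arc_lo_hi e
        have h6 := S.arc_lo_hi f
        rw [hef.1, h4] at h5
        exact absurd h5 (S.anti _ _ h6)
      · rw [Sigma.mk.injEq] at hef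
        exact S.uniq e f (eq_of_heq hef.2) hef.1
  refine h1.trans ?_
  rw [Finset.card_sigma]
  refine (Finset.sum_le_card_nsmul _ _ b hB).trans ?_
  rw [smul_eq_mul]
  exact Nat.mul_le_mul_right _ hA

open Classical in
theorem card_N1 : (univ.filter (fun x => S.N1 (C.e₁ x) (C.e₂ x) ∨ S.N1 (C.e₂ x) (C.e₁ x))).card ≤
    d * d * C.crossed.card := by
  refine count_bound _ (fun e => univ.filter (fun f => S.N1 e f)) (d * d) ?_ ?_
  · intro e
    refine S.card_by_ends _ (S.out (S.lo e)) S.out d d (S.card_out _) (fun v _ => S.card_out v) ?_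
    intro f hf
    simp only [mem_filter, mem_univ, true_and] at hf
    exact Or.inl ⟨(S.mem_out _ _).2 hf, (S.mem_out _ _).2 (S.arc_lo_hi f)⟩
  · intro x hx
    simpa using hx

open Classical in
theorem card_N2 : (univ.filter (fun x => S.N2 (C.e₁ x) (C.e₂ x) ∨ S.N2 (C.e₂ x) (C.e₁ x))).card ≤
    d * d * C.crossed.card := by
  refine count_bound _ (fun e => univ.filter (fun f => S.N2 e f)) (d * d) ?_ ?_
  · intro e
    refine S.card_by_ends _ (S.out (S.hi e)) S.out d d (S.card_out _) (fun v _ => S.card_out v) ?_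
    intro f hf
    simp only [mem_filter, mem_univ, true_and] at hf
    exact Or.inl ⟨(S.mem_out _ _).2 hf, (S.mem_out _ _).2 (S.arc_lo_hi f)⟩
  · intro x hx
    simpa using hx

theorem hi_ne (x : X) : S.hi (C.e₁ x) ≠ S.hi (C.e₂ x) := by
  have h1 := C.h1 x
  have h2 := C.h2 x
  have h3 := C.h3 x
  have h4 := C.h4 x
  rcases S.ends (C.e₁ x) with ⟨a, b⟩ | ⟨a, b⟩ <;> rcases S.ends (C.e₂ x) with ⟨c, e⟩ | ⟨c, e⟩ <;>
    rw [a, c] at h1 <;> rw [a, e] at h2 <;> rw [b, c] at h3 <;> rw [b, e] at h4 <;> assumption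

open Classical in
theorem card_N3 : (univ.filter (fun x => S.N3 (C.e₁ x) (C.e₂ x))).card ≤
    d * t * C.crossed.card := by
  refine count_bound _ (fun e => univ.filter (fun f => S.N3 e f ∧ S.hi e ≠ S.hi f)) (d * t) ?_ ?_
  · intro e
    refine S.card_by_ends _ ((S.out (S.lo e)).erase (S.hi e)) (fun z => S.com (S.hi e) z) d t
      ((card_erase_le).trans (S.card_out _)) (fun v hv => S.card_com _ _ ?_) ?_
    · exact (ne_of_mem_erase hv).symm
    · intro f hf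
      simp only [mem_filter, mem_univ, true_and] at hf
      obtain ⟨⟨h1, h2⟩, h3⟩ := hf
      right
      refine ⟨mem_erase.2 ⟨h3.symm, (S.mem_out _ _).2 h1⟩, (S.mem_com _ _ _).2 ⟨?_, ?_⟩⟩
      · exact (S.adj _ _).2 (Or.inr h2)
      · exact (S.adj _ _).2 (Or.inr (S.arc_lo_hi f))
  · intro x hx
    simp only [mem_filter, mem_univ, true_and] at hx ⊢
    exact Or.inl ⟨hx, S.hi_ne x⟩

open Classical in
theorem card_Bad : (univ.filter (fun x => S.Bad (C.e₁ x) (C.e₂ x) ∨ S.Bad (C.e₂ x) (C.e₁ x))).card ≤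
    d * t * t * C.crossed.card := by
  refine count_bound _ (fun f => univ.filter (fun e => S.Bad e f)) (d * t * t) ?_ ?_
  · intro f
    have hne : ∀ u v, S.arc u v → u ≠ v := by
      rintro u v h rfl
      exact S.anti _ _ h h
    refine S.card_by_ends _ ((S.out (S.hi f)).biUnion (fun y => S.com (S.hi f) y) \ {S.hi f})
      (fun v => S.com v (S.hi f)) (d * t) t ?_ ?_ ?_
    · refine (card_le_card sdiff_subset).trans ?_
      refine card_biUnion_le.trans ?_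
      refine (Finset.sum_le_card_nsmul _ _ t (fun y hy => S.card_com _ _ (hne _ _
        ((S.mem_out _ _).1 hy)))).trans ?_
      rw [smul_eq_mul]
      exact Nat.mul_le_mul_right _ (S.card_out _)
    · intro v hv
      refine S.card_com _ _ ?_
      rw [mem_sdiff, mem_singleton] at hv
      exact hv.2
    · intro e he
      simp only [mem_filter, mem_univ, true_and] at he
      obtain ⟨⟨-, h1, h2⟩, h3⟩ := he
      have key : ∀ v, S.arc v (S.hi f) → S.s2 v (S.hi f) ≠ 0 →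
          v ∈ (S.out (S.hi f)).biUnion (fun y => S.com (S.hi f) y) \ {S.hi f} := by
        intro v hv hs
        rw [mem_sdiff, mem_singleton, mem_biUnion]
        refine ⟨?_, hne _ _ hv⟩
        unfold s2 at hs
        split_ifs at hs with h4
        · obtain ⟨e', ⟨f', -, h5, h6⟩, h7, h8⟩ := h4
          rw [h7] at h5
          rw [h8] at h6
          refine ⟨S.hi f', (S.mem_out _ _).2 h6, (S.mem_com _ _ _).2 ⟨?_, ?_⟩⟩
          · exact (S.adj _ _).2 (Or.inr hv)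
          · exact (S.adj _ _).2 (Or.inr h5)
        · exact absurd rfl hs
      rcases h3 with h3 | h3
      · left
        refine ⟨key _ h1 h3, (S.mem_com _ _ _).2 ⟨S.adj_lo_hi e, ?_⟩⟩
        exact (S.adj _ _).2 (Or.inr h2)
      · right
        refine ⟨key _ h2 h3, (S.mem_com _ _ _).2 ⟨(S.adj_lo_hi e).symm, ?_⟩⟩
        exact (S.adj _ _).2 (Or.inr h1)
  · intro x hx
    simp only [mem_filter, mem_univ, true_and] at hx ⊢
    exact hx.symm

open Classical in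
/-- the total gain -/
theorem total : (Fintype.card X : ℝ) -
    (15 * (2 * d ^ 2 + d * t) + 2 * d * t ^ 2) * C.crossed.card ≤ 6 * ∑ x, gv C S.s x := by
  have hp : ∀ x, 1 - 15 * ((if S.N1 (C.e₁ x) (C.e₂ x) ∨ S.N1 (C.e₂ x) (C.e₁ x) then (1 : ℝ) else 0) +
      (if S.N2 (C.e₁ x) (C.e₂ x) ∨ S.N2 (C.e₂ x) (C.e₁ x) then (1 : ℝ) else 0) +
      (if S.N3 (C.e₁ x) (C.e₂ x) then (1 : ℝ) else 0)) -
      2 * (if S.Bad (C.e₁ x) (C.e₂ x) ∨ S.Bad (C.e₂ x) (C.e₁ x) then (1 : ℝ) else 0) ≤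
      6 * gv C S.s x := by
    intro x
    have i1 : (0 : ℝ) ≤ if S.N1 (C.e₁ x) (C.e₂ x) ∨ S.N1 (C.e₂ x) (C.e₁ x) then (1 : ℝ) else 0 := by
      split_ifs <;> norm_num
    have i2 : (0 : ℝ) ≤ if S.N2 (C.e₁ x) (C.e₂ x) ∨ S.N2 (C.e₂ x) (C.e₁ x) then (1 : ℝ) else 0 := by
      split_ifs <;> norm_num
    have i3 : (0 : ℝ) ≤ if S.N3 (C.e₁ x) (C.e₂ x) then (1 : ℝ) else 0 := by
      split_ifs <;> norm_num
    have i4 : (0 : ℝ) ≤ if S.Bad (C.e₁ x) (C.e₂ x) ∨ S.Bad (C.e₂ x) (C.e₁ x) then (1 : ℝ) else 0 := by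
      split_ifs <;> norm_num
    have hv : 6 * gv C S.s x = 5 * S.val S.s1 (C.e₁ x) (C.e₂ x) + S.val S.s2 (C.e₁ x) (C.e₂ x) := by
      rw [S.gv_val, S.val_s]; ring
    rw [hv]
    by_cases hneg : S.Neg (C.e₁ x) (C.e₂ x)
    · have h1 := S.val1_neg (C.e₁ x) (C.e₂ x)
      have h2 := S.val2_any (C.e₁ x) (C.e₂ x)
      have h3 : (1 : ℝ) ≤ (if S.N1 (C.e₁ x) (C.e₂ x) ∨ S.N1 (C.e₂ x) (C.e₁ x) then (1 : ℝ) else 0) +
        (if S.N2 (C.e₁ x) (C.e₂ x) ∨ S.N2 (C.e₂ x) (C.e₁ x) then (1 : ℝ) else 0) +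
        (if S.N3 (C.e₁ x) (C.e₂ x) then (1 : ℝ) else 0) := by
        rcases hneg with h | h | h | h | h
        · rw [if_pos (Or.inl h : S.N1 (C.e₁ x) (C.e₂ x) ∨ S.N1 (C.e₂ x) (C.e₁ x))]; linarith
        · rw [if_pos (Or.inr h : S.N1 (C.e₁ x) (C.e₂ x) ∨ S.N1 (C.e₂ x) (C.e₁ x))]; linarith
        · rw [if_pos (Or.inl h : S.N2 (C.e₁ x) (C.e₂ x) ∨ S.N2 (C.e₂ x) (C.e₁ x))]; linarith
        · rw [if_pos (Or.inr h : S.N2 (C.e₁ x) (C.e₂ x) ∨ S.N2 (C.e₂ x) (C.e₁ x))]; linarith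
        · rw [if_pos (h : S.N3 (C.e₁ x) (C.e₂ x))]; linarith
      linarith
    by_cases hT : S.T (C.e₁ x) (C.e₂ x)
    · have h1 := S.val1_T hT
      obtain ⟨h2, h3⟩ := S.val2_T hT
      by_cases hb : S.Bad (C.e₁ x) (C.e₂ x)
      · rw [if_pos (Or.inl hb : S.Bad (C.e₁ x) (C.e₂ x) ∨ S.Bad (C.e₂ x) (C.e₁ x))]
        linarith
      · have := h3 hb
        linarith
    by_cases hT' : S.T (C.e₂ x) (C.e₁ x)
    · have h1 := S.val1_T hT'
      obtain ⟨h2, h3⟩ := S.val2_T hT'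
      rw [S.val_symm] at h1 h2
      by_cases hb : S.Bad (C.e₂ x) (C.e₁ x)
      · rw [if_pos (Or.inr hb : S.Bad (C.e₁ x) (C.e₂ x) ∨ S.Bad (C.e₂ x) (C.e₁ x))]
        linarith
      · have := h3 hb
        rw [S.val_symm] at this
        linarith
    have h1 := S.val1_other hneg hT hT'
    have h2 := S.val2_any (C.e₁ x) (C.e₂ x)
    linarith
  have hs := Finset.sum_le_sum (fun x (_ : x ∈ (univ : Finset X)) => hp x)
  rw [← Finset.mul_sum] at hs
  refine le_trans ?_ hs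
  rw [Finset.sum_sub_distrib, Finset.sum_sub_distrib, ← Finset.mul_sum, ← Finset.mul_sum,
    Finset.sum_add_distrib, Finset.sum_add_distrib]
  simp only [Finset.sum_boole, Finset.sum_const, card_univ, nsmul_eq_mul, mul_one]
  have k1 := S.card_N1
  have k2 := S.card_N2
  have k3 := S.card_N3
  have k4 := S.card_Bad
  have k1' : ((univ.filter (fun x => S.N1 (C.e₁ x) (C.e₂ x) ∨ S.N1 (C.e₂ x) (C.e₁ x))).card : ℝ) ≤
    d * d * C.crossed.card := by exact_mod_cast k1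
  have k2' : ((univ.filter (fun x => S.N2 (C.e₁ x) (C.e₂ x) ∨ S.N2 (C.e₂ x) (C.e₁ x))).card : ℝ) ≤
    d * d * C.crossed.card := by exact_mod_cast k2
  have k3' : ((univ.filter (fun x => S.N3 (C.e₁ x) (C.e₂ x))).card : ℝ) ≤
    d * t * C.crossed.card := by exact_mod_cast k3
  have k4' : ((univ.filter (fun x => S.Bad (C.e₁ x) (C.e₂ x) ∨ S.Bad (C.e₂ x) (C.e₁ x))).card : ℝ) ≤
    d * t * t * C.crossed.card := by exact_mod_cast k4
  linarith

end Sys

end Helper27.SG
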