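import Pool.Agent.Helper5.CR.B6
import Pool.Agent.Helper27.SG.Comb

/-!
# Sparse crossed graphs
-/

set_option linter.unusedSectionVars false

namespace Helper27.SG

open Finset Helper5.CR

/-- `H` has an orientation in which every vertex has outdegree at most `d`. -/
def Oriented {n : ℕ} (H : SimpleGraph (Fin n)) (d : ℕ) : Prop :=
  ∃ out : Fin n → Finset (Fin n), (∀ v, (out v).card ≤ d) ∧
    ∀ u v, H.Adj u v → v ∈ out u ∨ u ∈ out v

/-- Any two different vertices of `H` have at most `t` common neighbours. -/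
def Codeg {n : ℕ} (H : SimpleGraph (Fin n)) (t : ℕ) : Prop :=
  ∀ u v, u ≠ v → Nat.card {w // H.Adj u w ∧ H.Adj v w} ≤ t

section restrict
variable {V E X : Type} [Fintype V] [DecidableEq V] [Fintype E] [DecidableEq E] [Fintype X]
  [DecidableEq X] (C : CSys V E X)

theorem mem_crossed₁ (x : X) : C.e₁ x ∈ C.crossed := by
  unfold CSys.crossed CSys.k
  simp only [mem_filter, mem_univ, true_and]
  exact Finset.card_pos.2 ⟨x, by simp⟩

theorem mem_crossed₂ (x : X) : C.e₂ x ∈ C.crossed := by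
  unfold CSys.crossed CSys.k
  simp only [mem_filter, mem_univ, true_and]
  exact Finset.card_pos.2 ⟨x, by simp⟩

/-- forget the edges without crossings -/
def restr : CSys V {e // e ∈ C.crossed} X where
  src e := C.src e.1
  tgt e := C.tgt e.1
  e₁ x := ⟨C.e₁ x, mem_crossed₁ C x⟩
  e₂ x := ⟨C.e₂ x, mem_crossed₂ C x⟩
  loop e := C.loop e.1
  ne x h := C.ne x (congrArg Subtype.val h)
  h1 := C.h1
  h2 := C.h2
  h3 := C.h3
  h4 := C.h4
  once x y h := by
    apply C.once
    rcases h with ⟨h, h'⟩ | ⟨h, h'⟩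
    · exact Or.inl ⟨congrArg Subtype.val h, congrArg Subtype.val h'⟩
    · exact Or.inr ⟨congrArg Subtype.val h, congrArg Subtype.val h'⟩

theorem card_crossed_restr : (restr C).crossed.card ≤ C.crossed.card := by
  refine (card_le_univ _).trans ?_
  simp

theorem base_restr (col : V → Bool) (x : X) : (restr C).base col x = C.base col x := rfl

end restrict

open Classical in
/-- the system given by an orientation -/
noncomputable def mkSys {n : ℕ} {E X : Type} [Fintype E] [Fintype X]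
    (C : CSys (Fin n) E X) (hC : ∀ e, C.src e < C.tgt e)
    (hu : ∀ e f, C.src e = C.src f → C.tgt e = C.tgt f → e = f)
    (H : SimpleGraph (Fin n)) (hH : ∀ e, H.Adj (C.src e) (C.tgt e)) (d t : ℕ)
    (out : Fin n → Finset (Fin n)) (ho : ∀ v, (out v).card ≤ d)
    (hout : ∀ u v, H.Adj u v → v ∈ out u ∨ u ∈ out v) (ht : Codeg H t) : Sys C H d t where
  arc u v := H.Adj u v ∧ v ∈ out u ∧ (u ∈ out v → u < v)
  adj u v := by
    constructor
    · intro h
      rcases hout u v h with h1 | h1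
      · by_cases h2 : u ∈ out v
        · rcases lt_or_gt_of_ne h.ne with h3 | h3
          · exact Or.inl ⟨h, h1, fun _ => h3⟩
          · exact Or.inr ⟨h.symm, h2, fun _ => h3⟩
        · exact Or.inl ⟨h, h1, fun h' => absurd h' h2⟩
      · by_cases h2 : v ∈ out u
        · rcases lt_or_gt_of_ne h.ne with h3 | h3
          · exact Or.inl ⟨h, h2, fun _ => h3⟩
          · exact Or.inr ⟨h.symm, h1, fun _ => h3⟩
        · exact Or.inr ⟨h.symm, h1, fun h' => absurd h' h2⟩
    · rintro (h | h)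
      · exact h.1
      · exact h.1.symm
  anti u v h h' := lt_asymm (h.2.2 h'.2.1) (h'.2.2 h.2.1)
  out u := univ.filter (fun v => H.Adj u v ∧ v ∈ out u ∧ (u ∈ out v → u < v))
  mem_out u v := by simp
  card_out u := by
    refine (card_le_card ?_).trans (ho u)
    intro v hv
    simp only [mem_filter, mem_univ, true_and] at hv
    exact hv.2.1
  com u v := univ.filter (fun w => H.Adj u w ∧ H.Adj v w)
  mem_com u v w := by simp
  card_com u v huv := by
    have := ht u v huv
    rw [Nat.card_eq_fintype_card, Fintype.card_subtype] at this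
    exact this
  lo e := if H.Adj (C.src e) (C.tgt e) ∧ C.tgt e ∈ out (C.src e) ∧
    (C.src e ∈ out (C.tgt e) → C.src e < C.tgt e) then C.src e else C.tgt e
  hi e := if H.Adj (C.src e) (C.tgt e) ∧ C.tgt e ∈ out (C.src e) ∧
    (C.src e ∈ out (C.tgt e) → C.src e < C.tgt e) then C.tgt e else C.src e
  arc_lo_hi e := by
    by_cases h : H.Adj (C.src e) (C.tgt e) ∧ C.tgt e ∈ out (C.src e) ∧
      (C.src e ∈ out (C.tgt e) → C.src e < C.tgt e)
    · rw [if_pos h, if_pos h]; exact h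
    · rw [if_neg h, if_neg h]
      refine ⟨(hH e).symm, ?_, ?_⟩
      · rcases hout _ _ (hH e) with h1 | h1
        · by_contra h2
          exact h ⟨hH e, h1, fun h' => absurd h' h2⟩
        · exact h1
      · intro h1
        exact absurd ⟨hH e, h1, fun _ => hC e⟩ h
  ends e := by
    by_cases h : H.Adj (C.src e) (C.tgt e) ∧ C.tgt e ∈ out (C.src e) ∧
      (C.src e ∈ out (C.tgt e) → C.src e < C.tgt e)
    · rw [if_pos h, if_pos h]; exact Or.inl ⟨rfl, rfl⟩
    · rw [if_neg h, if_neg h]; exact Or.inr ⟨rfl, rfl⟩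
  uniq e f h1 h2 := by
    have he := hC e
    have hf := hC f
    split_ifs at h1 h2
    · exact hu e f h1 h2
    · rw [h1, h2] at he
      exact absurd hf (lt_asymm he)
    · rw [h1, h2] at he
      exact absurd hf (lt_asymm he)
    · exact hu e f h2 h1

/-- plane 1 and plane 2 for a colouring -/
theorem exists_decomp {V E : Type} [Fintype E] {src tgt : E → V} [Fintype V]
    (P : PreDrawing src tgt) (hG : P.Good) (hne : ∀ e, src e ≠ tgt e) (col : V → Bool) :
    ∃ S : E → Prop, crS src tgt S + crS src tgt (fun e => ¬ S e) ≤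
      ∑ x, (P.toCSys hG hne).base col x := by
  classical
  refine ⟨fun e => (P.toCSys hG hne).mono col e, ?_⟩
  refine (Nat.add_le_add (P.plane1_le hG hne col (fun e => (P.toCSys hG hne).mono col e)
    (fun e he => he)) (P.plane2_le hG (fun e => ¬ ((P.toCSys hG hne).mono col e)))).trans ?_
  rw [← Finset.sum_add_distrib]
  apply Finset.sum_le_sum
  intro x _
  unfold CSys.base
  apply Nat.add_le_add
  · exact le_of_eq (PreDrawing.ite_of_iff Iff.rfl)
  · exact le_of_eq (PreDrawing.ite_of_iff Iff.rfl)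

open Classical in
/-- the improvement in the case of many crossings -/
theorem many_case {n : ℕ} {E X : Type} [Fintype E] [Fintype X]
    (C : CSys (Fin n) E X) (hC : ∀ e, C.src e < C.tgt e)
    (hu : ∀ e f, C.src e = C.src f → C.tgt e = C.tgt f → e = f)
    (H : SimpleGraph (Fin n))
    (hH : ∀ e ∈ C.crossed, H.Adj (C.src e) (C.tgt e)) (d t : ℕ)
    (ho : Oriented H d) (ht : Codeg H t)
    (hN : 2 * (15 * (2 * d ^ 2 + d * t) + 2 * d * t ^ 2) * C.crossed.card ≤ Fintype.card X) :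
    ∃ col : Fin n → Bool, ((∑ x, C.base col x : ℕ) : ℝ) ≤
      (3 / 8 - 1 / (442368 * ((d : ℝ) + d ^ 2 + 1) ^ 2)) * Fintype.card X := by
  obtain ⟨out, ho1, ho2⟩ := ho
  have hC' : ∀ e, (restr C).src e < (restr C).tgt e := fun e => hC e.1
  have hu' : ∀ e f, (restr C).src e = (restr C).src f → (restr C).tgt e = (restr C).tgt f →
      e = f := fun e f h1 h2 => Subtype.ext (hu e.1 f.1 h1 h2)
  let S := mkSys (restr C) hC' hu' H (fun e => hH e.1 e.2) d t out ho1 ho2 ht
  set D : ℝ := (d : ℝ) + d ^ 2 + 1 with hDdef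
  have hd0 : (0 : ℝ) ≤ d := Nat.cast_nonneg d
  have hD1 : 1 ≤ D := by rw [hDdef]; nlinarith
  have hD : ∀ v, ∑ j, |S.s v j| ≤ D := by
    intro v
    have := S.sum_abs_s v
    rw [hDdef]; linarith
  set β : ℝ := 1 / (1152 * D ^ 2) with hβ
  have hβ0 : 0 < β := by positivity
  have hβD2 : β * D ^ 2 = 1 / 1152 := by rw [hβ]; field_simp
  have hβD : β * D ≤ 1 / 2 := by
    have : β * D ≤ β * D ^ 2 := by
      apply mul_le_mul_of_nonneg_left _ hβ0.le
      nlinarith
    rw [hβD2] at this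
    linarith
  obtain ⟨col, hcol⟩ := exists_col (α := 1 - β * D) hD (by linarith) hβ0.le (by ring) (restr C)
  refine ⟨col, ?_⟩
  have h1 := S.total
  have h2 : ((restr C).crossed.card : ℝ) ≤ C.crossed.card := by
    exact_mod_cast card_crossed_restr C
  have hNr : 2 * (15 * (2 * (d : ℝ) ^ 2 + d * t) + 2 * d * (t : ℝ) ^ 2) * C.crossed.card ≤
      Fintype.card X := by exact_mod_cast hN
  have hK : (0 : ℝ) ≤ 15 * (2 * (d : ℝ) ^ 2 + d * t) + 2 * d * (t : ℝ) ^ 2 := by positivity
  have h3 := mul_le_mul_of_nonneg_left h2 hK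
  have hgv : (Fintype.card X : ℝ) / 12 ≤ ∑ x, gv (restr C) S.s x := by linarith
  have hX : (0 : ℝ) ≤ Fintype.card X := Nat.cast_nonneg _
  have h4 : (1 / 2) * β / 8 * ((Fintype.card X : ℝ) / 12) ≤
      (1 - β * D) * β / 8 * ∑ x, gv (restr C) S.s x := by
    apply mul_le_mul _ hgv (by positivity) (by
      have : 0 ≤ 1 - β * D := by linarith
      positivity)
    have : (1 / 2) * β ≤ (1 - β * D) * β := mul_le_mul_of_nonneg_right (by linarith) hβ0.le
    linarith
  have h5 : 3 * (β * D) ^ 2 = β / 384 := by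
    have : (β * D) ^ 2 = β * (β * D ^ 2) := by ring
    rw [this, hβD2]; ring
  rw [h5] at hcol
  have h6 : 1 / (442368 * D ^ 2) = β / 384 := by
    rw [hβ]; field_simp; norm_num
  rw [h6]
  refine hcol.trans ?_
  have h7 : (1 / 2) * β / 8 * ((Fintype.card X : ℝ) / 12) = β / 192 * Fintype.card X := by ring
  rw [h7] at h4
  linarith

theorem pow_bound (K : ℕ) : 2 * (K + 1) * (4 * K + 1) * 4 ^ (4 * K + 1) ≤ 2 ^ (13 * K + 3) := by
  have h1 : K + 1 ≤ 2 ^ K := Nat.lt_two_pow_self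
  have h2 : 4 * K + 1 ≤ 2 ^ (4 * K) := Nat.lt_two_pow_self
  calc 2 * (K + 1) * (4 * K + 1) * 4 ^ (4 * K + 1) ≤ 2 * 2 ^ K * 2 ^ (4 * K) * 4 ^ (4 * K + 1) := by
        gcongr
    _ = 2 ^ (13 * K + 3) := by
        rw [show (4 : ℕ) ^ (4 * K + 1) = 2 ^ (8 * K + 2) by
          rw [show (4 : ℕ) = 2 ^ 2 by norm_num, ← pow_mul]; congr 1; ring]
        rw [← pow_succ', ← pow_add, ← pow_add]
        congr 1
        ring

theorem pow_bound' (d : ℕ) : 442368 * (d + d ^ 2 + 1) ^ 2 ≤ 2 ^ (19 + 4 * d) := by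
  have h3 : d + 1 ≤ 2 ^ d := Nat.lt_two_pow_self
  have h4 : d + d ^ 2 + 1 ≤ (d + 1) ^ 2 := by nlinarith
  have h5 : (d + d ^ 2 + 1) ^ 2 ≤ 2 ^ (4 * d) := by
    calc (d + d ^ 2 + 1) ^ 2 ≤ ((d + 1) ^ 2) ^ 2 := Nat.pow_le_pow_left h4 2
      _ = (d + 1) ^ 4 := by ring
      _ ≤ (2 ^ d) ^ 4 := Nat.pow_le_pow_left h3 4
      _ = 2 ^ (4 * d) := by rw [← pow_mul, mul_comm]
  rw [pow_add]
  exact Nat.mul_le_mul (by norm_num) h5

/-- the theorem for the crossed edges of an optimal drawing -/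
theorem main_aux (d t n M : ℕ)
    (hM1 : 13 * (2 * (15 * (2 * d ^ 2 + d * t) + 2 * d * t ^ 2)) + 3 ≤ M) (hM2 : 19 + 4 * d ≤ M)
    (G H : SimpleGraph (Fin n))
    (P : PreDrawing (fun e : Edge G => e.1.1) (fun e : Edge G => e.1.2)) (hs : P.Simple)
    (hopt : P.crossings = cr G)
    (hH : ∀ e : Edge G, (∃ δ ∈ (P.route e).tail, P.passes (P.pt δ) = 2) → H.Adj e.1.1 e.1.2)
    (ho : Oriented H d) (ht : Codeg H t) :
    (cr₂ G : ℝ) ≤ (3 / 8 - 1 / 2 ^ M) * cr G := by
  classical
  have hne := edge_ne G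
  have hG := P.good_of_optimal hne hs hopt
  have hNr : (0 : ℝ) ≤ cr G := Nat.cast_nonneg _
  obtain ⟨K, hKdef⟩ : ∃ K : ℕ, K = 2 * (15 * (2 * d ^ 2 + d * t) + 2 * d * t ^ 2) := ⟨_, rfl⟩
  rw [← hKdef] at hM1
  by_cases hcase : cr G ≤ K * P.crossedEdges
  · -- few crossings per crossed edge
    have h1 := sparse_main K n G P hs hopt hcase
    refine h1.trans (mul_le_mul_of_nonneg_right ?_ hNr)
    have h2 : (2 : ℝ) ^ (2 + 2 * (4 * K)) = 4 ^ (4 * K + 1) := by
      rw [show 2 + 2 * (4 * K) = 2 * (4 * K + 1) by ring, pow_mul]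
      norm_num
    rw [h2]
    have h3 : (2 * ((K : ℝ) + 1) * (4 * K + 1) * 4 ^ (4 * K + 1)) ≤ 2 ^ M := by
      have h4 := (pow_bound K).trans (Nat.pow_le_pow_right (n := 2) (by norm_num) hM1)
      exact_mod_cast h4
    have h5 := one_div_le_one_div_of_le (by positivity) h3
    linarith
  · push Not at hcase
    have hcr := P.crossedEdges_eq hG hne
    have hcard := P.card_X2
    obtain ⟨col, hcol⟩ := many_case (P.toCSys hG hne) (fun e => e.2.1)
      (fun e f h1 h2 => Subtype.ext (Prod.ext h1 h2)) H (fun e he => by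
        apply hH
        unfold CSys.crossed at he
        simp only [mem_filter, mem_univ, true_and] at he
        obtain ⟨x, hx⟩ := Finset.card_pos.1 he
        simp only [mem_filter, mem_univ, true_and] at hx
        have : P.thru e x.1 := by
          rw [P.thru_iff hG x e]
          rcases hx with h | h
          · exact Or.inl h.symm
          · exact Or.inr h.symm
        obtain ⟨δ, hδ, hδx⟩ := List.mem_map.1 this
        exact ⟨δ, hδ, by rw [hδx]; exact x.2⟩) d t ho ht (by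
        rw [← hcr, hcard, hopt, ← hKdef]
        exact hcase.le)
    rw [hcard, hopt] at hcol
    obtain ⟨S, hS⟩ := exists_decomp P hG hne col
    have h1 : (cr₂ G : ℝ) ≤ ((∑ x, (P.toCSys hG hne).base col x : ℕ) : ℝ) := by
      exact_mod_cast (cr₂_le G S).trans hS
    refine (h1.trans hcol).trans (mul_le_mul_of_nonneg_right ?_ hNr)
    have h2 := (pow_bound' d).trans (Nat.pow_le_pow_right (n := 2) (by norm_num) hM2)
    have h3 : (442368 * ((d : ℝ) + d ^ 2 + 1) ^ 2) ≤ 2 ^ M := by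
      exact_mod_cast h2
    have h5 := one_div_le_one_div_of_le (by positivity) h3
    linarith

theorem exp_bound (d t : ℕ) :
    13 * (2 * (15 * (2 * d ^ 2 + d * t) + 2 * d * t ^ 2)) + 3 ≤ 1300 * (d + t + 1) ^ 3 ∧
      19 + 4 * d ≤ 1300 * (d + t + 1) ^ 3 := by
  have e1 : 1 ≤ d + t + 1 := by omega
  have h1 : d ^ 2 ≤ (d + t + 1) ^ 3 := by
    calc d ^ 2 ≤ (d + t + 1) ^ 2 := Nat.pow_le_pow_left (by omega) 2
      _ ≤ (d + t + 1) ^ 3 := Nat.pow_le_pow_right e1 (by norm_num)
  have h2 : d * t ≤ (d + t + 1) ^ 3 := by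
    calc d * t ≤ (d + t + 1) * (d + t + 1) := Nat.mul_le_mul (by omega) (by omega)
      _ = (d + t + 1) ^ 2 := by ring
      _ ≤ (d + t + 1) ^ 3 := Nat.pow_le_pow_right e1 (by norm_num)
  have h3 : d * t ^ 2 ≤ (d + t + 1) ^ 3 := by
    calc d * t ^ 2 ≤ (d + t + 1) * (d + t + 1) ^ 2 :=
          Nat.mul_le_mul (by omega) (Nat.pow_le_pow_left (by omega) 2)
      _ = (d + t + 1) ^ 3 := by ring
  have h4 : 1 ≤ (d + t + 1) ^ 3 := Nat.one_le_pow _ _ e1
  have h7 : d ≤ (d + t + 1) ^ 3 := by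
    calc d ≤ (d + t + 1) ^ 1 := by rw [pow_one]; omega
      _ ≤ (d + t + 1) ^ 3 := Nat.pow_le_pow_right e1 (by norm_num)
  have h8 : 13 * (2 * (15 * (2 * d ^ 2 + d * t) + 2 * d * t ^ 2)) + 3 =
      780 * d ^ 2 + 390 * (d * t) + 52 * (d * t ^ 2) + 3 := by ring
  rw [h8]
  generalize (d + t + 1) ^ 3 = A at *
  generalize d ^ 2 = a at *
  generalize d * t ^ 2 = b at *
  generalize d * t = c at *
  constructor <;> omega

/-- the theorem for the crossed edges of an optimal drawing -/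
theorem main_drawing (d t n : ℕ) (G H : SimpleGraph (Fin n))
    (P : PreDrawing (fun e : Edge G => e.1.1) (fun e : Edge G => e.1.2)) (hs : P.Simple)
    (hopt : P.crossings = cr G)
    (hH : ∀ e : Edge G, (∃ δ ∈ (P.route e).tail, P.passes (P.pt δ) = 2) → H.Adj e.1.1 e.1.2)
    (ho : Oriented H d) (ht : Codeg H t) :
    (cr₂ G : ℝ) ≤ (3 / 8 - 1 / 2 ^ (1300 * (d + t + 1) ^ 3)) * cr G :=
  main_aux d t n _ (exp_bound d t).1 (exp_bound d t).2 G H P hs hopt hH ho ht

/-- the theorem for graphs -/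
theorem main_graph (d t n : ℕ) (G : SimpleGraph (Fin n)) (ho : Oriented G d) (ht : Codeg G t) :
    (cr₂ G : ℝ) ≤ (3 / 8 - 1 / 2 ^ (1300 * (d + t + 1) ^ 3)) * cr G := by
  obtain ⟨P, hs, hopt⟩ := exists_optimal G
  exact main_drawing d t n G G P hs hopt (fun e _ => e.2.2) ho ht

/-- bounded maximum degree -/
theorem main_degree (Δ n : ℕ) (G : SimpleGraph (Fin n))
    (h : ∀ v, Nat.card {w // G.Adj v w} ≤ Δ) :
    (cr₂ G : ℝ) ≤ (3 / 8 - 1 / 2 ^ (1300 * (2 * Δ + 1) ^ 3)) * cr G := by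
  classical
  have h1 := main_graph Δ Δ n G ⟨fun v => univ.filter (fun w => G.Adj v w), fun v => by
    have := h v
    rw [Nat.card_eq_fintype_card, Fintype.card_subtype] at this
    exact this, fun u v huv => Or.inl (by simpa using huv)⟩ (fun u v _ => by
    refine le_trans ?_ (h u)
    exact Nat.card_le_card_of_injective
      (fun w : {w // G.Adj u w ∧ G.Adj v w} => (⟨w.1, w.2.1⟩ : {w // G.Adj u w}))
      (fun a b hab => Subtype.ext (by simpa using hab)))
  have h2 : Δ + Δ + 1 = 2 * Δ + 1 := by ring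
  rw [h2] at h1
  exact h1

end Helper27.SG
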