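import Pool.Agent.Helper5.CR.A4

/-!
# Small correlations between the colours of vertices

For an abstract crossing system and weights `s u v`, a random colouring in which `u` copies (up to
sign) the colour of `v` with a small probability proportional to `s u v` changes the cost `3/8` of
the random colouring in first order.
-/

set_option linter.unusedSectionVars false

namespace Helper27.SG

open Finset Helper5.CR

/-- `+1` or `-1` -/
def sg (b : Bool) : ℝ := if b then 1 else -1

theorem sg_not (b : Bool) : sg (!b) = - sg b := by cases b <;> simp [sg]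

theorem sg_sq (b : Bool) : sg b * sg b = 1 := by cases b <;> simp [sg]

theorem abs_sg (b : Bool) : |sg b| = 1 := by cases b <;> simp [sg]

/-- the cost of a crossing of `ab` and `cd` as a polynomial in the colours -/
noncomputable def pol {V : Type} (a b c d : V) (x : V → ℝ) : ℝ :=
  3 / 8 + (1 / 8) * (x a * x c + x a * x d + x b * x c + x b * x d - x a * x b - x c * x d) +
    (3 / 8) * (x a * x b * x c * x d)

section
variable {V : Type} [DecidableEq V]

theorem pol_affine {a b c d : V} (hab : a ≠ b) (hac : a ≠ c) (had : a ≠ d) (hbc : b ≠ c)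
    (hbd : b ≠ d) (hcd : c ≠ d) (x : V → ℝ) (v : V) :
    pol a b c d x = (1 + x v) / 2 * pol a b c d (Function.update x v 1) +
      (1 - x v) / 2 * pol a b c d (Function.update x v (-1)) := by
  unfold pol
  by_cases h1 : a = v
  · subst h1
    simp only [Function.update_self, Function.update_of_ne hab.symm, Function.update_of_ne hac.symm,
      Function.update_of_ne had.symm]
    ring
  by_cases h2 : b = v
  · subst h2
    simp only [Function.update_self, Function.update_of_ne hab, Function.update_of_ne hbc.symm,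
      Function.update_of_ne hbd.symm]
    ring
  by_cases h3 : c = v
  · subst h3
    simp only [Function.update_self, Function.update_of_ne hac, Function.update_of_ne hbc,
      Function.update_of_ne hcd.symm]
    ring
  by_cases h4 : d = v
  · subst h4
    simp only [Function.update_self, Function.update_of_ne had, Function.update_of_ne hbd,
      Function.update_of_ne hcd]
    ring
  simp only [Function.update_of_ne h1, Function.update_of_ne h2, Function.update_of_ne h3,
    Function.update_of_ne h4]
  ring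

/-- A function which is affine in every coordinate is minimized at a vertex of the cube. -/
theorem exists_sign [Fintype V] (P : (V → ℝ) → ℝ)
    (hP : ∀ (x : V → ℝ) (v : V), P x = (1 + x v) / 2 * P (Function.update x v 1) +
      (1 - x v) / 2 * P (Function.update x v (-1)))
    (m : V → ℝ) (hm : ∀ v, |m v| ≤ 1) : ∃ col : V → Bool, P (fun v => sg (col v)) ≤ P m := by
  have key : ∀ S : Finset V, ∃ x : V → ℝ, (∀ v ∈ S, x v = 1 ∨ x v = -1) ∧ (∀ v, |x v| ≤ 1) ∧
      P x ≤ P m := by
    intro S
    induction S using Finset.induction_on with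
    | empty => exact ⟨m, by simp, hm, le_rfl⟩
    | insert v S hv ih =>
      obtain ⟨x, h1, h2, h3⟩ := ih
      have h4 := hP x v
      have h5 := abs_le.1 (h2 v)
      rcases le_total (P (Function.update x v 1)) (P (Function.update x v (-1))) with h6 | h6
      · refine ⟨Function.update x v 1, ?_, ?_, ?_⟩
        · intro w hw
          by_cases hwv : w = v
          · subst hwv; left; simp
          · rw [Function.update_of_ne hwv]
            exact h1 w ((Finset.mem_insert.1 hw).resolve_left hwv)
        · intro w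
          by_cases hwv : w = v
          · subst hwv; simp
          · rw [Function.update_of_ne hwv]; exact h2 w
        · refine le_trans ?_ h3
          rw [h4]
          nlinarith
      · refine ⟨Function.update x v (-1), ?_, ?_, ?_⟩
        · intro w hw
          by_cases hwv : w = v
          · subst hwv; right; simp
          · rw [Function.update_of_ne hwv]
            exact h1 w ((Finset.mem_insert.1 hw).resolve_left hwv)
        · intro w
          by_cases hwv : w = v
          · subst hwv; simp
          · rw [Function.update_of_ne hwv]; exact h2 w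
        · refine le_trans ?_ h3
          rw [h4]
          nlinarith
  obtain ⟨x, h1, -, h3⟩ := key univ
  refine ⟨fun v => decide (x v = 1), ?_⟩
  have h4 : (fun v => sg (decide (x v = 1))) = x := by
    funext v
    rcases h1 v (mem_univ v) with h | h
    · simp [sg, h]
    · have : ¬ (x v = 1) := by rw [h]; norm_num
      simp [sg, h]
      norm_num
  rw [h4]
  exact h3

end

/-! ### moments of random signs -/

section moments
variable {V : Type} [Fintype V] [DecidableEq V]

theorem sum_flip (a : V) (F : (V → Bool) → ℝ)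
    (h : ∀ y : V → Bool, F (Function.update y a (!y a)) = - F y) : ∑ y, F y = 0 := by
  have hinv : Function.Involutive (fun y : V → Bool => Function.update y a (!y a)) := by
    intro y
    funext v
    by_cases hv : v = a
    · subst hv; simp
    · simp [Function.update_of_ne hv]
  have h1 := Equiv.sum_comp (Function.Involutive.toPerm _ hinv) F
  have h2 : ∑ y, F ((Function.Involutive.toPerm _ hinv) y) = - ∑ y, F y := by
    rw [← Finset.sum_neg_distrib]
    exact Finset.sum_congr rfl fun y _ => h y
  rw [h2] at h1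
  linarith

theorem sum_two {a b : V} (hab : a ≠ b) : ∑ y : V → Bool, sg (y a) * sg (y b) = 0 := by
  apply sum_flip a
  intro y
  rw [Function.update_self, Function.update_of_ne hab.symm, sg_not]
  ring

theorem sum_one (a : V) : ∑ y : V → Bool, sg (y a) * sg (y a) = Fintype.card (V → Bool) := by
  simp [sg_sq]

/-- a product of three different signs and any fourth one has mean zero -/
theorem sum_three {a b c : V} (hab : a ≠ b) (hac : a ≠ c) (hbc : b ≠ c) (j : V) :
    ∑ y : V → Bool, sg (y a) * sg (y b) * sg (y c) * sg (y j) = 0 := by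
  by_cases h : j = a
  · subst h
    apply sum_flip b
    intro y
    rw [Function.update_self, Function.update_of_ne hab, Function.update_of_ne hbc.symm, sg_not]
    ring
  · apply sum_flip a
    intro y
    rw [Function.update_self, Function.update_of_ne hab.symm, Function.update_of_ne hac.symm,
      Function.update_of_ne h, sg_not]
    ring

/-- the linear form with coefficients `s v` -/
noncomputable def Lin (s : V → V → ℝ) (v : V) (y : V → Bool) : ℝ := ∑ j, s v j * sg (y j)

theorem abs_Lin {s : V → V → ℝ} {D : ℝ} (hD : ∀ v, ∑ j, |s v j| ≤ D) (v : V) (y : V → Bool) :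
    |Lin s v y| ≤ D := by
  refine le_trans ?_ (hD v)
  refine (Finset.abs_sum_le_sum_abs _ _).trans ?_
  apply Finset.sum_le_sum
  intro j _
  rw [abs_mul, abs_sg, mul_one]

theorem sum_Lin (s : V → V → ℝ) (a v : V) :
    ∑ y : V → Bool, sg (y a) * Lin s v y = s v a * Fintype.card (V → Bool) := by
  unfold Lin
  simp only [Finset.mul_sum]
  rw [Finset.sum_comm]
  rw [Finset.sum_eq_single a]
  · rw [← sum_one a, Finset.mul_sum]
    refine Finset.sum_congr rfl fun y _ => ?_
    ring
  · intro j _ hj
    have := sum_two (V := V) (a := a) (b := j) hj.symm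
    have h2 : ∑ y : V → Bool, sg (y a) * (s v j * sg (y j)) =
        s v j * ∑ y : V → Bool, sg (y a) * sg (y j) := by
      rw [Finset.mul_sum]
      refine Finset.sum_congr rfl fun y _ => ?_
      ring
    rw [h2, this, mul_zero]
  · intro h
    exact absurd (mem_univ a) h

theorem sum_Lin_three (s : V → V → ℝ) {a b c : V} (hab : a ≠ b) (hac : a ≠ c) (hbc : b ≠ c)
    (v : V) : ∑ y : V → Bool, sg (y a) * sg (y b) * sg (y c) * Lin s v y = 0 := by
  unfold Lin
  simp only [Finset.mul_sum]
  rw [Finset.sum_comm]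
  apply Finset.sum_eq_zero
  intro j _
  have h2 : ∑ y : V → Bool, sg (y a) * sg (y b) * sg (y c) * (s v j * sg (y j)) =
      s v j * ∑ y : V → Bool, sg (y a) * sg (y b) * sg (y c) * sg (y j) := by
    rw [Finset.mul_sum]
    refine Finset.sum_congr rfl fun y _ => ?_
    ring
  rw [h2, sum_three hab hac hbc, mul_zero]

/-- the conditional means -/
noncomputable def mean (s : V → V → ℝ) (α β : ℝ) (y : V → Bool) (v : V) : ℝ :=
  α * sg (y v) + β * Lin s v y

theorem abs_mean {s : V → V → ℝ} {D α β : ℝ} (hD : ∀ v, ∑ j, |s v j| ≤ D) (hα : 0 ≤ α)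
    (hβ : 0 ≤ β) (h1 : α + β * D = 1) (y : V → Bool) (v : V) : |mean s α β y v| ≤ 1 := by
  unfold mean
  refine (abs_add_le _ _).trans ?_
  rw [abs_mul, abs_mul, abs_sg, abs_of_nonneg hα, abs_of_nonneg hβ]
  have := mul_le_mul_of_nonneg_left (abs_Lin hD v y) hβ
  linarith

/-- second moments -/
theorem sum_mean_two {s : V → V → ℝ} {D α β : ℝ} (hD : ∀ v, ∑ j, |s v j| ≤ D)
    {a b : V} (hab : a ≠ b) :
    |∑ y, mean s α β y a * mean s α β y b -
      α * β * (s a b + s b a) * Fintype.card (V → Bool)| ≤
      (β * D) ^ 2 * Fintype.card (V → Bool) := by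
  have h1 : ∑ y, mean s α β y a * mean s α β y b -
      α * β * (s a b + s b a) * Fintype.card (V → Bool) =
      ∑ y, (β * Lin s a y) * (β * Lin s b y) := by
    have e : ∀ y, mean s α β y a * mean s α β y b =
        α ^ 2 * (sg (y a) * sg (y b)) + α * β * (sg (y a) * Lin s b y) +
        α * β * (sg (y b) * Lin s a y) + (β * Lin s a y) * (β * Lin s b y) := by
      intro y; unfold mean; ring
    rw [Finset.sum_congr rfl (fun y _ => e y)]
    rw [Finset.sum_add_distrib, Finset.sum_add_distrib, Finset.sum_add_distrib, ← Finset.mul_sum,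
      ← Finset.mul_sum, ← Finset.mul_sum, sum_two hab, sum_Lin, sum_Lin]
    ring
  rw [h1]
  refine (Finset.abs_sum_le_sum_abs _ _).trans ?_
  have h2 : ∀ y ∈ (univ : Finset (V → Bool)), |β * Lin s a y * (β * Lin s b y)| ≤
      (β * D) ^ 2 := by
    intro y _
    rw [abs_mul, abs_mul, abs_mul]
    have ha := mul_le_mul_of_nonneg_left (abs_Lin hD a y) (abs_nonneg β)
    have hb := mul_le_mul_of_nonneg_left (abs_Lin hD b y) (abs_nonneg β)
    have h3 := mul_le_mul ha hb (by positivity) (le_trans (by positivity) ha)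
    refine h3.trans (le_of_eq ?_)
    rw [show |β| * D * (|β| * D) = (|β| * |β|) * D ^ 2 by ring, abs_mul_abs_self]
    ring
  refine (Finset.sum_le_card_nsmul _ _ _ h2).trans (le_of_eq ?_)
  rw [nsmul_eq_mul, card_univ, mul_comm]

theorem abs_four {w x y z w' x' y' z' : ℝ} (hw : |w| ≤ w') (hx : |x| ≤ x') (hy : |y| ≤ y')
    (hz : |z| ≤ z') : |w * x * y * z| ≤ w' * x' * y' * z' := by
  rw [abs_mul, abs_mul, abs_mul]
  have w0 := (abs_nonneg w).trans hw
  have x0 := (abs_nonneg x).trans hx
  have y0 := (abs_nonneg y).trans hy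
  gcongr

theorem rest_bound {A B C D p q r s α t : ℝ} (hA : |A| ≤ α) (hB : |B| ≤ α) (hC : |C| ≤ α)
    (hD : |D| ≤ α) (hp : |p| ≤ t) (hq : |q| ≤ t) (hr : |r| ≤ t) (hs : |s| ≤ t)
    (h1 : α + t = 1) :
    |(A + p) * (B + q) * (C + r) * (D + s) - A * B * C * D -
      (A * B * C * s + A * B * D * r + A * C * D * q + B * C * D * p)| ≤ 6 * t ^ 2 := by
  have e : (A + p) * (B + q) * (C + r) * (D + s) - A * B * C * D -
      (A * B * C * s + A * B * D * r + A * C * D * q + B * C * D * p) =
      (p * q * C * D + p * B * r * D + p * B * C * s + A * q * r * D + A * q * C * s +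
        A * B * r * s) + (p * q * r * D + p * q * C * s + p * B * r * s + A * q * r * s) +
        p * q * r * s := by ring
  rw [e]
  have b1 := abs_four hp hq hC hD
  have b2 := abs_four hp hB hr hD
  have b3 := abs_four hp hB hC hs
  have b4 := abs_four hA hq hr hD
  have b5 := abs_four hA hq hC hs
  have b6 := abs_four hA hB hr hs
  have b7 := abs_four hp hq hr hD
  have b8 := abs_four hp hq hC hs
  have b9 := abs_four hp hB hr hs
  have b10 := abs_four hA hq hr hs
  have b11 := abs_four hp hq hr hs
  have t0 : 0 ≤ t := (abs_nonneg p).trans hp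
  have a0 : 0 ≤ α := (abs_nonneg A).trans hA
  have hsum : |(p * q * C * D + p * B * r * D + p * B * C * s + A * q * r * D + A * q * C * s +
        A * B * r * s) + (p * q * r * D + p * q * C * s + p * B * r * s + A * q * r * s) +
        p * q * r * s| ≤ |p * q * C * D| + |p * B * r * D| + |p * B * C * s| + |A * q * r * D| +
        |A * q * C * s| + |A * B * r * s| + (|p * q * r * D| + |p * q * C * s| +
        |p * B * r * s| + |A * q * r * s|) + |p * q * r * s| := by
    refine (abs_add_le _ _).trans (add_le_add_left ?_ _ |>.trans_eq rfl)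
    refine (abs_add_le _ _).trans (add_le_add ?_ ?_)
    · refine (abs_add_le _ _).trans (add_le_add_left ?_ _)
      refine (abs_add_le _ _).trans (add_le_add_left ?_ _)
      refine (abs_add_le _ _).trans (add_le_add_left ?_ _)
      refine (abs_add_le _ _).trans (add_le_add_left ?_ _)
      exact abs_add_le _ _
    · refine (abs_add_le _ _).trans (add_le_add_left ?_ _)
      refine (abs_add_le _ _).trans (add_le_add_left ?_ _)
      exact abs_add_le _ _
  refine hsum.trans ?_
  have ha : α = 1 - t := by linarith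
  subst ha
  have t1 : t ≤ 1 := by linarith
  nlinarith [mul_nonneg t0 a0, mul_nonneg (mul_nonneg t0 a0) t0, mul_nonneg t0 t0,
    mul_nonneg (mul_nonneg t0 t0) (mul_nonneg t0 a0), mul_nonneg (mul_nonneg t0 t0) (mul_nonneg t0 t0)]

/-- fourth moments -/
theorem sum_mean_four {s : V → V → ℝ} {D α β : ℝ} (hD : ∀ v, ∑ j, |s v j| ≤ D) (hα : 0 ≤ α)
    (hβ : 0 ≤ β) (h1 : α + β * D = 1)
    {a b c d : V} (hab : a ≠ b) (hac : a ≠ c) (had : a ≠ d) (hbc : b ≠ c)
    (hbd : b ≠ d) (hcd : c ≠ d) :
    ∑ y, mean s α β y a * mean s α β y b * mean s α β y c * mean s α β y d ≤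
      6 * (β * D) ^ 2 * Fintype.card (V → Bool) := by
  have e : ∀ y, mean s α β y a * mean s α β y b * mean s α β y c * mean s α β y d =
      α ^ 4 * (sg (y a) * sg (y b) * sg (y c) * sg (y d)) +
      α ^ 3 * β * (sg (y a) * sg (y b) * sg (y c) * Lin s d y) +
      α ^ 3 * β * (sg (y a) * sg (y b) * sg (y d) * Lin s c y) +
      α ^ 3 * β * (sg (y a) * sg (y c) * sg (y d) * Lin s b y) +
      α ^ 3 * β * (sg (y b) * sg (y c) * sg (y d) * Lin s a y) +
      (mean s α β y a * mean s α β y b * mean s α β y c * mean s α β y d -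
        (α * sg (y a)) * (α * sg (y b)) * (α * sg (y c)) * (α * sg (y d)) -
        ((α * sg (y a)) * (α * sg (y b)) * (α * sg (y c)) * (β * Lin s d y) +
        (α * sg (y a)) * (α * sg (y b)) * (α * sg (y d)) * (β * Lin s c y) +
        (α * sg (y a)) * (α * sg (y c)) * (α * sg (y d)) * (β * Lin s b y) +
        (α * sg (y b)) * (α * sg (y c)) * (α * sg (y d)) * (β * Lin s a y))) := by
    intro y; ring
  rw [Finset.sum_congr rfl (fun y _ => e y)]
  rw [Finset.sum_add_distrib, Finset.sum_add_distrib, Finset.sum_add_distrib,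
    Finset.sum_add_distrib, Finset.sum_add_distrib, ← Finset.mul_sum, ← Finset.mul_sum,
    ← Finset.mul_sum, ← Finset.mul_sum, ← Finset.mul_sum, sum_three hab hac hbc,
    sum_Lin_three s hab hac hbc, sum_Lin_three s hab had hbd, sum_Lin_three s hac had hcd,
    sum_Lin_three s hbc hbd hcd]
  simp only [mul_zero, zero_add]
  have h2 : ∀ y ∈ (univ : Finset (V → Bool)),
      mean s α β y a * mean s α β y b * mean s α β y c * mean s α β y d -
        (α * sg (y a)) * (α * sg (y b)) * (α * sg (y c)) * (α * sg (y d)) -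
        ((α * sg (y a)) * (α * sg (y b)) * (α * sg (y c)) * (β * Lin s d y) +
        (α * sg (y a)) * (α * sg (y b)) * (α * sg (y d)) * (β * Lin s c y) +
        (α * sg (y a)) * (α * sg (y c)) * (α * sg (y d)) * (β * Lin s b y) +
        (α * sg (y b)) * (α * sg (y c)) * (α * sg (y d)) * (β * Lin s a y)) ≤
      6 * (β * D) ^ 2 := by
    intro y _
    have hs : ∀ v, |α * sg (y v)| ≤ α := by
      intro v; rw [abs_mul, abs_sg, abs_of_nonneg hα, mul_one]
    have hl : ∀ v, |β * Lin s v y| ≤ β * D := by
      intro v; rw [abs_mul, abs_of_nonneg hβ]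
      exact mul_le_mul_of_nonneg_left (abs_Lin hD v y) hβ
    exact (le_abs_self _).trans (rest_bound (hs a) (hs b) (hs c) (hs d) (hl a) (hl b) (hl c)
      (hl d) h1)
  refine (Finset.sum_le_card_nsmul _ _ _ h2).trans (le_of_eq ?_)
  rw [nsmul_eq_mul, card_univ, mul_comm]

end moments

/-! ### the first order gain -/

section gain
variable {V E X : Type} [Fintype V] [DecidableEq V] [Fintype E] [DecidableEq E] [Fintype X]
  [DecidableEq X]

/-- weights of the two edges minus weights of the four pairs of ends of different edges -/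
def gv (C : CSys V E X) (s : V → V → ℝ) (x : X) : ℝ :=
  (s (C.src (C.e₁ x)) (C.tgt (C.e₁ x)) + s (C.tgt (C.e₁ x)) (C.src (C.e₁ x))) +
  (s (C.src (C.e₂ x)) (C.tgt (C.e₂ x)) + s (C.tgt (C.e₂ x)) (C.src (C.e₂ x))) -
  (s (C.src (C.e₁ x)) (C.src (C.e₂ x)) + s (C.src (C.e₂ x)) (C.src (C.e₁ x))) -
  (s (C.src (C.e₁ x)) (C.tgt (C.e₂ x)) + s (C.tgt (C.e₂ x)) (C.src (C.e₁ x))) -
  (s (C.tgt (C.e₁ x)) (C.src (C.e₂ x)) + s (C.src (C.e₂ x)) (C.tgt (C.e₁ x))) -
  (s (C.tgt (C.e₁ x)) (C.tgt (C.e₂ x)) + s (C.tgt (C.e₂ x)) (C.tgt (C.e₁ x)))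

theorem base_eq (C : CSys V E X) (col : V → Bool) (x : X) :
    (C.base col x : ℝ) = pol (C.src (C.e₁ x)) (C.tgt (C.e₁ x)) (C.src (C.e₂ x))
      (C.tgt (C.e₂ x)) (fun v => sg (col v)) := by
  have key : ∀ p q r s : Bool, (((if p = q ∧ r = s ∧ p = r then 1 else 0) +
      (if ¬ p = q ∧ ¬ r = s then 1 else 0) : ℕ) : ℝ) =
      3 / 8 + (1 / 8) * (sg p * sg r + sg p * sg s + sg q * sg r + sg q * sg s - sg p * sg q -
        sg r * sg s) + (3 / 8) * (sg p * sg q * sg r * sg s) := by
    intro p q r s
    cases p <;> cases q <;> cases r <;> cases s <;> simp [sg] <;> norm_num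
  refine Eq.trans ?_ (key (col (C.src (C.e₁ x))) (col (C.tgt (C.e₁ x))) (col (C.src (C.e₂ x)))
    (col (C.tgt (C.e₂ x))))
  unfold CSys.base CSys.mono
  congr 1

theorem sum_pol {s : V → V → ℝ} {D α β : ℝ} (hD : ∀ v, ∑ j, |s v j| ≤ D) (hα : 0 ≤ α)
    (hβ : 0 ≤ β) (h1 : α + β * D = 1) (C : CSys V E X) (x : X) :
    ∑ y, pol (C.src (C.e₁ x)) (C.tgt (C.e₁ x)) (C.src (C.e₂ x)) (C.tgt (C.e₂ x))
      (mean s α β y) ≤ (3 / 8 - α * β / 8 * gv C s x + 3 * (β * D) ^ 2) *
        Fintype.card (V → Bool) := by
  have hab := C.loop (C.e₁ x)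
  have hac := C.h1 x
  have had := C.h2 x
  have hbc := C.h3 x
  have hbd := C.h4 x
  have hcd := C.loop (C.e₂ x)
  unfold gv
  set a := C.src (C.e₁ x)
  set b := C.tgt (C.e₁ x)
  set c := C.src (C.e₂ x)
  set d := C.tgt (C.e₂ x)
  have m1 := abs_le.1 (sum_mean_two (α := α) (β := β) hD hab)
  have m2 := abs_le.1 (sum_mean_two (α := α) (β := β) hD hac)
  have m3 := abs_le.1 (sum_mean_two (α := α) (β := β) hD had)
  have m4 := abs_le.1 (sum_mean_two (α := α) (β := β) hD hbc)
  have m5 := abs_le.1 (sum_mean_two (α := α) (β := β) hD hbd)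
  have m6 := abs_le.1 (sum_mean_two (α := α) (β := β) hD hcd)
  have m7 := sum_mean_four hD hα hβ h1 hab hac had hbc hbd hcd
  have e : ∑ y, pol a b c d (mean s α β y) = 3 / 8 * Fintype.card (V → Bool) +
      (1 / 8) * (∑ y, mean s α β y a * mean s α β y c + ∑ y, mean s α β y a * mean s α β y d +
        ∑ y, mean s α β y b * mean s α β y c + ∑ y, mean s α β y b * mean s α β y d -
        ∑ y, mean s α β y a * mean s α β y b - ∑ y, mean s α β y c * mean s α β y d) +
      (3 / 8) * ∑ y, mean s α β y a * mean s α β y b * mean s α β y c * mean s α β y d := by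
    unfold pol
    rw [Finset.sum_add_distrib, Finset.sum_add_distrib, ← Finset.mul_sum, ← Finset.mul_sum,
      Finset.sum_sub_distrib, Finset.sum_sub_distrib, Finset.sum_add_distrib,
      Finset.sum_add_distrib, Finset.sum_add_distrib]
    simp only [Finset.sum_const, card_univ, nsmul_eq_mul]
    ring
  rw [e]
  linarith [m1.1, m2.2, m3.2, m4.2, m5.2, m6.1]

/-- the first order gain -/
theorem exists_col {s : V → V → ℝ} {D α β : ℝ} (hD : ∀ v, ∑ j, |s v j| ≤ D) (hα : 0 ≤ α)
    (hβ : 0 ≤ β) (h1 : α + β * D = 1) (C : CSys V E X) :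
    ∃ col : V → Bool, ((∑ x, C.base col x : ℕ) : ℝ) ≤
      (3 / 8 + 3 * (β * D) ^ 2) * Fintype.card X - α * β / 8 * ∑ x, gv C s x := by
  set P : (V → ℝ) → ℝ := fun z => ∑ x, pol (C.src (C.e₁ x)) (C.tgt (C.e₁ x)) (C.src (C.e₂ x))
    (C.tgt (C.e₂ x)) z with hPdef
  have hP : ∀ (z : V → ℝ) (v : V), P z = (1 + z v) / 2 * P (Function.update z v 1) +
      (1 - z v) / 2 * P (Function.update z v (-1)) := by
    intro z v
    simp only [hPdef]
    rw [Finset.mul_sum, Finset.mul_sum, ← Finset.sum_add_distrib]
    refine Finset.sum_congr rfl fun x _ => ?_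
    exact pol_affine (C.loop _) (C.h1 x) (C.h2 x) (C.h3 x) (C.h4 x) (C.loop _) z v
  have h2 : ∑ y : V → Bool, P (mean s α β y) ≤
      ((3 / 8 + 3 * (β * D) ^ 2) * Fintype.card X - α * β / 8 * ∑ x, gv C s x) *
        Fintype.card (V → Bool) := by
    simp only [hPdef]
    rw [Finset.sum_comm]
    refine (Finset.sum_le_sum (fun x _ => sum_pol hD hα hβ h1 C x)).trans (le_of_eq ?_)
    rw [← Finset.sum_mul, Finset.sum_add_distrib, Finset.sum_sub_distrib, ← Finset.mul_sum]
    simp only [Finset.sum_const, card_univ, nsmul_eq_mul]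
    ring
  have h3 : ∃ y : V → Bool, P (mean s α β y) ≤
      ((3 / 8 + 3 * (β * D) ^ 2) * Fintype.card X - α * β / 8 * ∑ x, gv C s x) := by
    by_contra hcon
    push Not at hcon
    have h4 : ∑ _y : V → Bool, ((3 / 8 + 3 * (β * D) ^ 2) * (Fintype.card X : ℝ) -
        α * β / 8 * ∑ x, gv C s x) < ∑ y : V → Bool, P (mean s α β y) := by
      apply Finset.sum_lt_sum_of_nonempty
      · exact ⟨fun _ => true, mem_univ _⟩
      · intro y _
        exact hcon y
    rw [Finset.sum_const, card_univ, nsmul_eq_mul] at h4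
    linarith
  obtain ⟨y, hy⟩ := h3
  obtain ⟨col, hcol⟩ := exists_sign P hP (mean s α β y) (abs_mean hD hα hβ h1 y)
  refine ⟨col, le_trans (le_of_eq ?_) (hcol.trans hy)⟩
  simp only [hPdef]
  push_cast
  exact Finset.sum_congr rfl fun x _ => base_eq C col x

end gain

end Helper27.SG
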